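import Pool.Agent.Q186.RU.Orb
import Pool.Agent.Y220.OG.Lgt
import Pool.Agent.Y192.OG.D9
import Pool.Agent.TH152.DS.Affine

/-!
Curves in quasi-projective varieties with a morphism to a pair of log general type which satisfies
orbifold contact conditions.
-/

set_option autoImplicit false

namespace Pool.Agent.Q186.RU

open MvPolynomial FF Pool.Agent.W603.LV Pool.Agent.W603.PV Pool.Agent.Q72.NA
open Pool.Agent.Q271.RC Pool.Agent.W602.Cov.R Pool.Agent.TH152.HY Pool.Agent.TH152.DS
open Pool.Agent.W602.GT (LogGeneralType Divisorial)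

variable {N' N n d : ℕ}

/-- The projection of `Y - D` to projective space satisfies the contact conditions: for every point
`(u, v)` of `Y` over a field with a discrete valuation with centre in `Y - D`, such that the
`f i (v)` are not zero, the functions `f i (v)` have orbifold contact. -/
def OrbOver (Y D : BiSet N' N) (f : Fin (n + 1) → MvPolynomial (Fin (N + 1)) ℂ) (m : ℕ)
    (Q : MvPolynomial (Fin (n + 1)) ℂ) : Prop :=
  ∀ (L : Type) [Field L] [Algebra ℂ L] (u : Fin (N' + 1) → L) (v : Fin (N + 1) → L),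
    Y.Mem u v → (∀ i, aeval v (f i) ≠ 0) → ∀ P : Place ℂ L, ¬ CentreIn D u v P →
    OrbContact m Q (fun i => aeval v (f i)) P

/-- The projection of `Y - D` is contained in the projective variety with the generic point `a`. -/
def LiesOver {K : Type} [Field K] [Algebra ℂ K] (a : Fin (N + 1) → K) (Y D : BiSet N' N) : Prop :=
  ∀ u v, QMem Y D u v → ∀ (H : MvPolynomial (Fin (N + 1)) ℂ) (k : ℕ), H.IsHomogeneous k →
    aeval a H = 0 → eval v H = 0

theorem exists_eq {Y D : BiSet N' N} {L : Type} [Field L] [Algebra ℂ L] {u : Fin (N' + 1) → L}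
    {v : Fin (N + 1) → L} (hm : Y.Mem u v) (hD : ¬ D.Mem u v) :
    ∃ F ∈ D.eqs, aeval (Sum.elim u v) F ≠ 0 := by
  by_contra hcon
  push Not at hcon
  exact hD ⟨hm.1, hm.2.1, hcon⟩

/-- points of `Y - D` over fields are mapped to points of `X` -/
theorem pt_of_lies {K : Type} [Field K] [Algebra ℂ K] {a : Fin (N + 1) → K} {Y D : BiSet N' N}
    (h : LiesOver a Y D) {L : Type} [Field L] [Algebra ℂ L] {u : Fin (N' + 1) → L}
    {v : Fin (N + 1) → L} (hm : Y.Mem u v) (hD : ¬ D.Mem u v) : PtF (F := ℂ) a v := by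
  obtain ⟨F, hF, hFuv⟩ := exists_eq hm hD
  intro H k hH hHa
  have h1 := null (X := Y) (G := F * rename Sum.inr H) (fun u0 v0 h0 => by
    rw [map_mul]
    by_cases h2 : eval (Sum.elim u0 v0) F = 0
    · rw [h2, zero_mul]
    · have h3 : QMem Y D u0 v0 := ⟨h0, fun hd => h2 (hd.2.2 F hF)⟩
      have h4 : eval (Sum.elim u0 v0) (rename Sum.inr H) = eval v0 H := by
        rw [eval_rename]
        rfl
      rw [h4, h u0 v0 h3 H k hH hHa, mul_zero]) hm
  rw [map_mul, aeval_inr] at h1
  exact (mul_eq_zero.1 h1).resolve_left hFuv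

/-- points in `D` have centre in `D` -/
theorem centre_of_mem {D : BiSet N' N} {L : Type} [Field L] [Algebra ℂ L] {u : Fin (N' + 1) → L}
    {v : Fin (N + 1) → L} (h : D.Mem u v) (P : Place ℂ L) : CentreIn D u v P := by
  intro c c' _ _ G hG E E' _
  exact Or.inl (h.2.2 G hG)

/-- the height of `u` is bounded by that of `v` -/
theorem pht_of_rel {Y : BiSet N' N} {Dg mm : Fin (N' + 1) → Fin (N' + 1) → ℕ}
    {c : Fin (N' + 1) → Fin (N' + 1) → ℕ → MvPolynomial (Fin (N + 1)) ℂ}
    (hrel : ∀ i j, Rel Y i j (Dg i j) (mm i j) (c i j)) :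
    ∃ C : ℕ, ∀ (L : Type) [Field L] [Algebra ℂ L] [IsFF ℂ L] (u : Fin (N' + 1) → L)
      (v : Fin (N + 1) → L), Y.Mem u v → (∀ i j, aeval v (c i j (mm i j)) ≠ 0) →
      pht ℂ u ≤ C * pht ℂ v := by
  classical
  refine ⟨(∑ l : Fin (N' + 1), ∑ j, ∑ s ∈ Finset.range (mm j l + 1), (c j l s).totalDegree) *
    (N + 1), ?_⟩
  intro L _ _ _ u v hm hc
  obtain ⟨l, hl⟩ := Function.ne_iff.mp hm.1
  obtain ⟨l0, hl0⟩ := Function.ne_iff.mp hm.2.1
  have hl' : u l ≠ 0 := hl
  have hl0' : v l0 ≠ 0 := hl0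
  have hv : v = fun i => v l0 * (v i / v l0) := by
    funext i
    field_simp
  have hval : ∀ j s, s ≤ mm j l → aeval v (c j l s) =
      v l0 ^ Dg j l * aeval (fun i => v i / v l0) (c j l s) := by
    intro j s hs
    have e : aeval v (c j l s) = aeval (fun i => v l0 * (v i / v l0)) (c j l s) :=
      congrArg (fun z => aeval z (c j l s)) hv
    rw [e, Pool.Agent.Y192.OG.aeval_scale ((hrel j l).hom s hs)]
  have hht := ht_alg (fun i => v i / v l0) u l hl' (fun j => mm j l) (fun j => c j l)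
    (fun j h0 => hc j l (by rw [hval j _ le_rfl, h0, mul_zero]))
    (fun j => by
      have h1 := (hrel j l).root hm hl'
      have h2 : v l0 ^ Dg j l * ∑ s ∈ Finset.range (mm j l + 1),
          aeval (fun i => v i / v l0) (c j l s) * (u j / u l) ^ s = 0 := by
        rw [← h1, Finset.mul_sum]
        refine Finset.sum_congr rfl fun s hs => ?_
        rw [hval j s (by have := Finset.mem_range.1 hs; omega)]
        ring
      exact (mul_eq_zero.1 h2).resolve_left (pow_ne_zero _ hl0'))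
  refine hht.trans ?_
  have hpv : 0 ≤ pht ℂ v := by
    have h2 := hgt_ratio_le v hl0' l0
    refine le_trans ?_ h2
    unfold hgt
    exact finsum_nonneg fun _ => le_max_right _ _
  have h3 : (∑ i, hgt ℂ (v i / v l0)) ≤ (N + 1) * pht ℂ v := by
    calc (∑ i, hgt ℂ (v i / v l0)) ≤ ∑ _i : Fin (N + 1), pht ℂ v :=
          Finset.sum_le_sum fun i _ => hgt_ratio_le v hl0' i
      _ = _ := by
          rw [Finset.sum_const, Finset.card_univ, Fintype.card_fin, nsmul_eq_mul]
          push_cast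
          ring
  have h4 : (∑ j, ∑ s ∈ Finset.range (mm j l + 1), (c j l s).totalDegree) ≤
      ∑ l : Fin (N' + 1), ∑ j, ∑ s ∈ Finset.range (mm j l + 1), (c j l s).totalDegree :=
    Finset.single_le_sum
      (f := fun l => ∑ j, ∑ s ∈ Finset.range (mm j l + 1), (c j l s).totalDegree)
      (fun _ _ => Nat.zero_le _) (Finset.mem_univ l)
  calc ((∑ j, ∑ s ∈ Finset.range (mm j l + 1), (c j l s).totalDegree : ℕ) : ℤ) *
        ∑ i, hgt ℂ (v i / v l0)
      ≤ ((∑ j, ∑ s ∈ Finset.range (mm j l + 1), (c j l s).totalDegree : ℕ) : ℤ) *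
        ((N + 1) * pht ℂ v) := mul_le_mul_of_nonneg_left h3 (Int.natCast_nonneg _)
    _ ≤ ((∑ l : Fin (N' + 1), ∑ j, ∑ s ∈ Finset.range (mm j l + 1),
          (c j l s).totalDegree : ℕ) : ℤ) * ((N + 1) * pht ℂ v) := by
        refine mul_le_mul_of_nonneg_right (by exact_mod_cast h4) ?_
        positivity
    _ = _ := by
        push_cast
        ring

/-- if `v` is constant, so is `u` -/
theorem const_of_rel {Y : BiSet N' N} {Dg mm : Fin (N' + 1) → Fin (N' + 1) → ℕ}
    {c : Fin (N' + 1) → Fin (N' + 1) → ℕ → MvPolynomial (Fin (N + 1)) ℂ}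
    (hrel : ∀ i j, Rel Y i j (Dg i j) (mm i j) (c i j)) {L : Type} [Field L] [Algebra ℂ L]
    {u : Fin (N' + 1) → L} {v : Fin (N + 1) → L} (hm : Y.Mem u v)
    (hc : ∀ i j, aeval v (c i j (mm i j)) ≠ 0) (hnc : Nonconstant u v) : Nonconst v := by
  obtain ⟨jb, hjb⟩ := Function.ne_iff.mp hm.2.1
  have hncb : ∃ i j, v j ≠ 0 ∧ v i / v j ∉ Set.range (algebraMap ℂ L) := by
    rcases hnc with ⟨i, j, hj, hij⟩ | h
    · by_contra hcon
      push Not at hcon
      have hv : ∀ l, ∃ x : ℂ, algebraMap ℂ L x = v l / v jb := fun l => hcon l jb hjb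
      choose x hx using hv
      have hb' : v = fun l => v jb * algebraMap ℂ L (x l) := by
        funext l
        rw [hx]
        have : v jb ≠ 0 := hjb
        field_simp
      have hval : ∀ s ≤ mm i j, aeval v (c i j s) =
          v jb ^ Dg i j * algebraMap ℂ L (eval x (c i j s)) := by
        intro s hs
        have e : aeval v (c i j s) =
            aeval (fun l => v jb * algebraMap ℂ L (x l)) (c i j s) :=
          congrArg (fun z => aeval z (c i j s)) hb'
        rw [e, Pool.Agent.Y192.OG.aeval_scale ((hrel i j).hom s hs)]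
        congr 1
        have := aeval_algebraMap_apply (A := ℂ) L x (c i j s)
        rw [← coe_aeval_eq_eval]
        exact this
      apply hij
      apply mem_range_of_alg
      have hroot := (hrel i j).root hm hj
      refine ⟨∑ s ∈ Finset.range (mm i j + 1),
        Polynomial.C (eval x (c i j s)) * Polynomial.X ^ s, fun h0 => ?_, ?_⟩
      · have h4 := congrArg (fun p => Polynomial.coeff p (mm i j)) h0
        simp only [Polynomial.finsetSum_coeff, Polynomial.coeff_C_mul, Polynomial.coeff_X_pow,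
          Polynomial.coeff_zero] at h4
        rw [Finset.sum_eq_single (mm i j)] at h4
        · rw [if_pos rfl, mul_one] at h4
          apply hc i j
          rw [hval _ le_rfl, h4, map_zero, mul_zero]
        · intro s _ hs
          rw [if_neg (fun h => hs h.symm), mul_zero]
        · intro h
          exact absurd (by simp) h
      · have h5 : v jb ^ Dg i j * (∑ s ∈ Finset.range (mm i j + 1),
            algebraMap ℂ L (eval x (c i j s)) * (u i / u j) ^ s) = 0 := by
          rw [← hroot, Finset.mul_sum]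
          refine Finset.sum_congr rfl fun s hs => ?_
          rw [hval s (by have := Finset.mem_range.1 hs; omega)]
          ring
        have h6 := (mul_eq_zero.mp h5).resolve_left (pow_ne_zero _ hjb)
        rw [map_sum, ← h6]
        refine Finset.sum_congr rfl fun s _ => ?_
        rw [map_mul, map_pow, Polynomial.aeval_C, Polynomial.aeval_X]
    · exact h
  obtain ⟨i1, j1, hj1, hij1⟩ := hncb
  exact ⟨i1, j1, hj1, fun h => hij1 (mem_range_of_alg h)⟩

/-- **Curves in generically finite covers.** -/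
theorem bounded {K : Type} [Field K] [Algebra ℂ K] {a : Fin (N + 1) → K}
    {f : Fin (n + 1) → MvPolynomial (Fin (N + 1)) ℂ} {Q : MvPolynomial (Fin (n + 1)) ℂ}
    {B : MvPolynomial (Fin (N + 1)) ℂ} {E A m : ℕ} (hBh : B.IsHomogeneous E)
    (hlin : ∀ (M : Type) [Field M] [Algebra ℂ M] [IsFF ℂ M] (v : Fin (N + 1) → M),
        PtF (F := ℂ) a v → aeval v B ≠ 0 → (∃ j, v j ≠ 0) → (∀ i, aeval v (f i) ≠ 0) ∧
        ∀ S : Finset (Place ℂ M),
          (∀ z : Place ℂ M, z ∉ S → OrbContact m Q (fun i => aeval v (f i)) z) →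
          Nonconst v → pht ℂ v ≤ A * (canDeg ℂ M + S.card))
    {Y D : BiSet N' N} (hlies : LiesOver a Y D) (horb : OrbOver Y D f m Q)
    {K' : Type} [Field K'] [Algebra ℂ K'] {a' : Fin (N' + 1) → K'} {b' : Fin (N + 1) → K'}
    (hK : Y.FunctionField K' a' b') (hD : ¬ D.Mem a' b')
    (halg : Algebra.IsAlgebraic
      (IntermediateField.adjoin ℂ {g : K' | ∃ i j, b' j ≠ 0 ∧ g = b' i / b' j}) K')
    (hB : aeval b' B ≠ 0) :
    ∃ (G : BiPoly N' N) (E1 E2 : ℕ), BiHom G E1 E2 ∧
      (∃ u v, QMem Y D u v ∧ eval (Sum.elim u v) G ≠ 0) ∧ ∃ R : ℕ, CurvesBounded Y D G A R := by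
  classical
  have hex : ∀ i j : Fin (N' + 1), ∃ (D m : ℕ) (c : ℕ → MvPolynomial (Fin (N + 1)) ℂ),
      Rel Y i j D m c ∧ aeval b' (c m) ≠ 0 := fun i j =>
    Pool.Agent.TH152.HY.exists_rel hK halg i j
  choose Dg mm c hrel using hex
  obtain ⟨C, hC⟩ := pht_of_rel (fun i j => (hrel i j).1)
  let R : MvPolynomial (Fin (N + 1)) ℂ := ∏ i : Fin (N' + 1), ∏ j : Fin (N' + 1), c i j (mm i j)
  obtain ⟨E', hRh⟩ : ∃ E', (R * B).IsHomogeneous E' :=
    ⟨_, (IsHomogeneous.prod _ _ _ fun i _ => IsHomogeneous.prod _ _ _ fun j _ =>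
      (hrel i j).1.hom _ le_rfl).mul hBh⟩
  have hsplit : ∀ {L : Type} [Field L] [Algebra ℂ L] (y : Fin (N + 1) → L),
      aeval y (R * B) ≠ 0 → (∀ i j, aeval y (c i j (mm i j)) ≠ 0) ∧ aeval y B ≠ 0 := by
    intro L _ _ y hy
    rw [map_mul] at hy
    refine ⟨fun i j h0 => left_ne_zero_of_mul hy ?_, right_ne_zero_of_mul hy⟩
    simp only [R, map_prod]
    exact Finset.prod_eq_zero (Finset.mem_univ i) (Finset.prod_eq_zero (Finset.mem_univ j) h0)
  have hbQ : aeval b' (R * B) ≠ 0 := by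
    rw [map_mul]
    refine mul_ne_zero ?_ hB
    simp only [R, map_prod]
    exact Finset.prod_ne_zero_iff.mpr fun i _ => Finset.prod_ne_zero_iff.mpr fun j _ => (hrel i j).2
  refine ⟨rename Sum.inr (R * B), 0, E', biHom_rename hRh, ?_, (C + 1) * A, ?_⟩
  · -- a point of `Y - D`
    obtain ⟨F, hF, hFab⟩ := exists_eq hK.mem hD
    obtain ⟨e, e', he⟩ := D.hom F hF
    have h2 : BiHom (F * rename Sum.inr (R * B) : BiPoly N' N) (e + 0) (e' + E') := by
      have := IsWeightedHomogeneous.mul he (biHom_rename (N := N') hRh)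
      exact this
    by_contra hcon
    push Not at hcon
    have h3 := (hK.van _ _ _ h2).2 (fun u v huv => by
      rw [map_mul]
      by_cases hFv : eval (Sum.elim u v) F = 0
      · rw [hFv, zero_mul]
      · rw [hcon u v ⟨huv, fun hd => hFv (hd.2.2 F hF)⟩, mul_zero])
    rw [map_mul, aeval_inr] at h3
    exact mul_ne_zero hFab hbQ h3
  · intro L _ _ _ S u v hmem hPS hnc hne
    rw [aeval_inr] at hne
    obtain ⟨h1, h2⟩ := hsplit v hne
    obtain ⟨P0, hP0⟩ := exists_place_not_mem (k := ℂ) (K := L) S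
    have hDuv : ¬ D.Mem u v := fun h => hPS P0 hP0 (centre_of_mem h P0)
    obtain ⟨jb, hjb⟩ := Function.ne_iff.mp hmem.2.1
    obtain ⟨h3, h4⟩ := hlin L v (pt_of_lies hlies hmem hDuv) h2 ⟨jb, hjb⟩
    have h5 := h4 S (fun z hz => horb L u v hmem h3 z (hPS z hz))
      (const_of_rel (fun i j => (hrel i j).1) hmem h1 hnc)
    have h6 := hC L u v hmem h1
    have h7 : euler S = canDeg ℂ L + S.card := rfl
    rw [h7]
    refine ⟨h5, ?_⟩
    have h8 : (C : ℤ) * pht ℂ v ≤ C * (A * (canDeg ℂ L + S.card)) :=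
      mul_le_mul_of_nonneg_left h5 (Int.natCast_nonneg _)
    push_cast
    linarith

/-- proportional coordinates -/
theorem prop_of {K L : Type} [Field K] [Algebra ℂ K] [Field L] [Algebra ℂ L]
    {a : Fin (N + 1) → K} {b' : Fin (N + 1) → L} (hb : b' ≠ 0) (ha : ∃ j, a j ≠ 0) (σ : K →ₐ[ℂ] L)
    (hσ : ∀ i j, σ (a i) * b' j = σ (a j) * b' i) :
    ∃ t : L, t ≠ 0 ∧ ∀ j, b' j = t * σ (a j) := by
  obtain ⟨k0, hk0⟩ := Function.ne_iff.mp hb
  have hk0' : b' k0 ≠ 0 := hk0
  obtain ⟨ja, hja⟩ := ha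
  have hσja : σ (a ja) ≠ 0 := (map_ne_zero σ).2 hja
  have hσk : σ (a k0) ≠ 0 := by
    intro h
    have h1 := hσ ja k0
    rw [h, zero_mul] at h1
    exact mul_ne_zero hσja hk0' h1
  refine ⟨b' k0 / σ (a k0), div_ne_zero hk0' hσk, fun l => ?_⟩
  rw [div_mul_eq_mul_div, eq_div_iff hσk, mul_comm (b' l), mul_comm (b' k0)]
  exact (hσ l k0).symm

/-- **The covers are of log general type.** -/
theorem cover_lgt {K : Type} [Field K] [Algebra ℂ K] {a : Fin (N + 1) → K}
    {f : Fin (n + 1) → MvPolynomial (Fin (N + 1)) ℂ} {e : ℕ} {Q : MvPolynomial (Fin (n + 1)) ℂ}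
    (hd : 0 < d) (hX : IsOrbPair d a f e Q) :
    ∃ m0 : ℕ, ∀ m, m0 ≤ m → ∀ (N' : ℕ) (Y D : BiSet N' N), OrbOver Y D f m Q →
      ∀ (K' : Type) [Field K'] [Algebra ℂ K'] (a' : Fin (N' + 1) → K') (b' : Fin (N + 1) → K'),
      Y.FunctionField K' a' b' →
      Algebra.IsAlgebraic
        (IntermediateField.adjoin ℂ {g : K' | ∃ i j, b' j ≠ 0 ∧ g = b' i / b' j}) K' →
      ∀ σ : K →ₐ[ℂ] K', (∀ i j, σ (a i) * b' j = σ (a j) * b' i) →
      LogGeneralType ℂ K' d (CentreIn D a' b') := by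
  have hess : Algebra.EssFiniteType ℂ K := ess_of_adjoin hX.gen.2
  obtain ⟨m0, hm0⟩ := Pool.Agent.Y220.OG.t_lgt K n d (fun i => aeval a (f i))
    (aeval (fun i => aeval a (f i) / aeval a (f 0)) Q) hd hX.ne hX.neQ
    (fun z => hX.fin.isAlgebraic z) hX.lgt
  refine ⟨m0, fun m hm N' Y D hoff L _ _ a' b' hF hLa σ hσ => ?_⟩
  obtain ⟨t, ht0, hbt⟩ := prop_of hF.mem.2.1 hX.gen.1 σ hσ
  let _ : Algebra K L := σ.toRingHom.toAlgebra
  have : IsScalarTower ℂ K L := IsScalarTower.of_algebraMap_eq' (σ.comp_algebraMap).symm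
  have hmap : ∀ z : K, algebraMap K L z = σ z := fun z => rfl
  -- `L` is finitely generated
  have : Algebra.EssFiniteType ℂ L := by
    have hfin : ({g : L | ∃ i j, a' j ≠ 0 ∧ g = a' i / a' j} ∪
        {g : L | ∃ i j, b' j ≠ 0 ∧ g = b' i / b' j}).Finite := by
      refine Set.Finite.union ?_ ?_
      · refine (Set.finite_range fun p : Fin (N' + 1) × Fin (N' + 1) => a' p.1 / a' p.2).subset ?_
        rintro _ ⟨i, j, -, rfl⟩
        exact ⟨(i, j), rfl⟩
      · refine (Set.finite_range fun p : Fin (N + 1) × Fin (N + 1) => b' p.1 / b' p.2).subset ?_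
        rintro _ ⟨i, j, -, rfl⟩
        exact ⟨(i, j), rfl⟩
    have h1 : (⊤ : IntermediateField ℂ L).FG := by
      rw [← hF.gen]
      exact IntermediateField.fg_adjoin_of_finite hfin
    exact IntermediateField.fg_top_iff.mp h1
  have : Algebra.IsAlgebraic K L := by
    have hle : IntermediateField.adjoin ℂ {g : L | ∃ i j, b' j ≠ 0 ∧ g = b' i / b' j} ≤
        σ.fieldRange := by
      rw [IntermediateField.adjoin_le_iff]
      rintro _ ⟨i, j, hj, rfl⟩
      refine ⟨a i / a j, ?_⟩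
      change σ (a i / a j) = _
      rw [hbt i, hbt j, map_div₀, mul_div_mul_left _ _ ht0]
    refine ⟨fun z => ?_⟩
    have h1 := hLa.isAlgebraic z
    have h2 : IsAlgebraic σ.fieldRange z :=
      isAlg_of_hom (IntermediateField.inclusion hle).toRingHom (fun _ => rfl) h1
    refine isAlg_of_hom (A := σ.fieldRange) (B := K)
      ((AlgEquiv.ofInjectiveField σ).symm.toAlgHom.toRingHom) ?_ h2
    intro y
    obtain ⟨y', hy'⟩ := (AlgEquiv.ofInjectiveField σ).surjective y
    rw [← hy']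
    change algebraMap K L ((AlgEquiv.ofInjectiveField σ).symm
      ((AlgEquiv.ofInjectiveField σ) y')) = _
    rw [AlgEquiv.symm_apply_apply]
    rfl
  refine hm0 L (CentreIn D a' b') fun P hP => ?_
  have hval : ∀ i, aeval b' (f i) = t ^ e * σ (aeval a (f i)) := by
    intro i
    have h1 : b' = fun j => t * σ (a j) := funext hbt
    have h2 : aeval b' (f i) = aeval (fun j => t * σ (a j)) (f i) := by rw [← h1]
    rw [h2, Pool.Agent.Y192.OG.aeval_scale (hX.hom i), aeval_map_hom]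
  have hne : ∀ i, aeval b' (f i) ≠ 0 := fun i => by
    rw [hval]
    exact mul_ne_zero (pow_ne_zero _ ht0) ((map_ne_zero σ).2 (hX.ne i))
  have hord : ∀ i, P.ord (aeval b' (f i)) = P.ord (t ^ e) + P.ord (σ (aeval a (f i))) := by
    intro i
    rw [hval, P.ord_mul (pow_ne_zero _ ht0) ((map_ne_zero σ).2 (hX.ne i))]
  rcases hoff L a' b' hF.mem hne P hP with ⟨i, j, h⟩ | ⟨h, hQ⟩
  · right
    refine ⟨j, i, ?_⟩
    rw [hord, hord] at h
    rw [hmap, hmap]
    have h1 : (m0 : ℤ) ≤ m := by exact_mod_cast hm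
    linarith
  · left
    refine ⟨fun i => ?_, ?_⟩
    · have h1 := h i
      rw [hord, hord] at h1
      rw [hmap, hmap]
      linarith
    · rw [hmap, ← aeval_map_hom]
      have h2 : (fun i => aeval b' (f i) / aeval b' (f 0)) =
          fun i => σ (aeval a (f i) / aeval a (f 0)) := by
        funext i
        rw [hval, hval, mul_div_mul_left _ _ (pow_ne_zero _ ht0), map_div₀]
      rw [h2] at hQ
      exact hQ

end Pool.Agent.Q186.RU
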