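import Pool.Agent.Q72.NA.Num

/-!
Choice of the derivation, with additional exceptional places.
-/

set_option autoImplicit false

namespace Pool.Agent.Q186.RU

open FF Pool.Agent.W603.LV Pool.Agent.Y192.FA Pool.Agent.Y192 Pool.Agent.Q72.NA

/-- the height of a point of a torus in terms of the number of places where it is not integral -/
theorem numQ (n : ℕ) (μ : ℕ) (M : Type) [Field M] [Algebra ℂ M] [IsFF ℂ M] (x : Fin n → Mˣ)
    (S : Finset (Place ℂ M)) (hS : ∀ z : Place ℂ M, z ∉ S → ∀ i, z.ord (x i : M) = 0)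
    (hyp : ∀ (D : Derivation ℂ M M) (hD : D ≠ 0) (B : Finset (Place ℂ M))
      (hB : ∀ z : Place ℂ M, vo z D < 0 → z ∈ B), S ⊆ B →
      (⟨M, x, D, hD, B, hB⟩ : FA.Curve n).ch 0 ≤
        μ * (⟨M, x, D, hD, B, hB⟩ : FA.Curve n).cnt
          (fun z => ((⟨M, x, D, hD, B, hB⟩ : FA.Curve n).bad z : ℤ)) 0) :
    (∑ i, ∑ᶠ z : Place ℂ M, |z.ord (x i : M)|) ≤ μ * max (2 * canDeg ℂ M + 3 * S.card) 0 := by
  classical
  by_cases hall : ∀ i, ∀ z : Place ℂ M, z.ord (x i : M) = 0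
  · have h0 : (∑ i, ∑ᶠ z : Place ℂ M, |z.ord (x i : M)|) = 0 := by
      refine Finset.sum_eq_zero fun i _ => ?_
      simp_rw [hall i, abs_zero]
      exact finsum_zero
    rw [h0]
    exact mul_nonneg (Int.natCast_nonneg _) (le_max_right _ _)
  push Not at hall
  obtain ⟨i0, z1, hz1'⟩ := hall
  obtain ⟨h, hh⟩ : ∃ h : M, h = (x i0 : M) := ⟨_, rfl⟩
  rw [← hh] at hz1'
  have hh0 : h ≠ 0 := by
    rw [hh]
    exact (x i0).ne_zero
  -- the support
  obtain ⟨P, hP⟩ : ∃ P : Finset (Place ℂ M), ∀ z, z ∈ P ↔ z.ord h ≠ 0 :=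
    ⟨(finite_support (k := ℂ) h).toFinset, fun z => by simp⟩
  have hPS : P ⊆ S := by
    intro z hz
    by_contra hzS
    rw [hP, hh] at hz
    exact hz (hS z hzS i0)
  -- the derivation
  have hD0 := der_ne (k := ℂ) (K := M)
  have hD0h : der ℂ M h ≠ 0 := (ord_der z1 hD0 hz1').1
  obtain ⟨D, hDd⟩ : ∃ D : Derivation ℂ M M, D = (h / der ℂ M h) • der ℂ M := ⟨_, rfl⟩
  have hDh : D h = h := by
    rw [hDd, Derivation.smul_apply, smul_eq_mul, div_mul_cancel₀ _ hD0h]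
  have hD : D ≠ 0 := by
    intro h0
    rw [h0] at hDh
    exact hh0 (by simpa using hDh.symm)
  have hP1 : ∀ z ∈ P, vo z D = 1 := by
    intro z hz
    have h1 := (ord_der z hD ((hP z).1 hz)).2
    rw [hDh] at h1
    omega
  have hP0 : ∀ z, z ∉ P → vo z D ≤ 0 := by
    intro z hz
    have h1 : z.ord h = 0 := by
      by_contra h1
      exact hz ((hP z).2 h1)
    obtain ⟨g, hg, e⟩ := der_mul z (ord_unif z) hD (f := h) (Or.inr h1.ge)
    rw [hDh] at e
    have hg0 : g ≠ 0 := by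
      rintro rfl
      rw [mul_zero] at e
      exact hh0 e
    have hp : D (unif z) ≠ 0 := by
      intro h2
      rw [h2, zero_mul] at e
      exact hh0 e
    have h3 := z.ord_mul hp hg0
    rw [← e, h1] at h3
    have h4 := hg.resolve_left hg0
    have h5 : z.ord (D (unif z)) = vo z D := rfl
    omega
  obtain ⟨T, hT⟩ : ∃ T : Finset (Place ℂ M), ∀ z, z ∈ T ↔ vo z D ≠ 0 :=
    ⟨(vo_finite hD).toFinset, fun z => by simp⟩
  have hPT : P ⊆ T := by
    intro z hz
    rw [hT, hP1 z hz]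
    exact one_ne_zero
  have hsum := canDeg_finset hD T fun z hz => (hT z).2 hz
  obtain ⟨ng, hng⟩ : ∃ ng : Place ℂ M → ℤ, ∀ z, ng z = max (-(vo z D)) 0 := ⟨_, fun _ => rfl⟩
  have hng0 : ∀ z, 0 ≤ ng z := fun z => by rw [hng]; exact le_max_right _ _
  have hng1 : ∀ z, ng z = -vo z D + if z ∈ P then 1 else 0 := by
    intro z
    rw [hng]
    by_cases hz : z ∈ P
    · rw [if_pos hz, hP1 z hz]
      rfl
    · rw [if_neg hz, add_zero]
      exact max_eq_left (by have := hP0 z hz; omega)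
  have hngT : ∑ z ∈ T, ng z = canDeg ℂ M + P.card := by
    rw [Finset.sum_congr rfl fun z _ => hng1 z, Finset.sum_add_distrib, Finset.sum_neg_distrib,
      hsum, neg_neg, Finset.sum_ite_mem, Finset.inter_eq_right.2 hPT]
    simp
  obtain ⟨Q, hQ⟩ : ∃ Q : Finset (Place ℂ M), Q = T.filter fun z => vo z D < 0 := ⟨_, rfl⟩
  have hQm : ∀ z, z ∈ Q ↔ vo z D < 0 := by
    intro z
    rw [hQ, Finset.mem_filter, hT]
    constructor
    · exact fun h => h.2
    · exact fun h => ⟨h.ne, h⟩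
  have hQT : Q ⊆ T := by
    rw [hQ]
    exact Finset.filter_subset _ _
  have hQc : (Q.card : ℤ) ≤ ∑ z ∈ T, ng z := by
    have h1 : (Q.card : ℤ) = ∑ z ∈ Q, 1 := by simp
    rw [h1]
    refine le_trans (Finset.sum_le_sum fun z hz => ?_)
      (Finset.sum_le_sum_of_subset_of_nonneg hQT fun z _ _ => hng0 z)
    rw [hng]
    have := (hQm z).1 hz
    exact le_max_of_le_left (by omega)
  have hB : ∀ z : Place ℂ M, vo z D < 0 → z ∈ S ∪ Q := fun z hz =>
    Finset.mem_union_right _ ((hQm z).2 hz)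
  have hbB : ∑ z ∈ S ∪ Q, (1 + ng z) ≤ S.card + 2 * (canDeg ℂ M + P.card) := by
    rw [Finset.sum_add_distrib]
    have h1 : ∑ z ∈ S ∪ Q, ng z ≤ ∑ z ∈ T, ng z := by
      have h2 : ∑ z ∈ (S ∪ Q) ∪ T, ng z = ∑ z ∈ T, ng z := by
        refine (Finset.sum_subset Finset.subset_union_right fun z _ hz => ?_).symm
        have h3 : vo z D = 0 := by
          by_contra h3
          exact hz ((hT z).2 h3)
        rw [hng, h3]
        rfl
      rw [← h2]
      exact Finset.sum_le_sum_of_subset_of_nonneg Finset.subset_union_left fun z _ _ => hng0 z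
    have h2 : ∑ z ∈ S ∪ Q, (1 : ℤ) ≤ S.card + Q.card := by
      have := Finset.card_union_le S Q
      simp only [Finset.sum_const, nsmul_eq_mul, mul_one]
      exact_mod_cast this
    rw [hngT] at h1 hQc
    linarith
  have hy := hyp D hD (S ∪ Q) hB Finset.subset_union_left
  have hbad : (⟨M, x, D, hD, S ∪ Q, hB⟩ : FA.Curve n).cnt
      (fun z => ((⟨M, x, D, hD, S ∪ Q, hB⟩ : FA.Curve n).bad z : ℤ)) 0 ≤
      ((∑ z ∈ S ∪ Q, (1 + ng z) : ℤ) : ℝ) := by
    have hb : ∀ z : Place ℂ M, (⟨M, x, D, hD, S ∪ Q, hB⟩ : FA.Curve n).bad z =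
        if z ∈ (⟨M, x, D, hD, S ∪ Q, hB⟩ : FA.Curve n).U then 0 else 1 + ng z := by
      intro z
      unfold FA.Curve.bad
      rw [hng]
    unfold FA.Curve.cnt
    rw [finsum_eq_sum_of_support_subset (s := S ∪ Q), Int.cast_sum]
    · refine Finset.sum_le_sum fun z _ => ?_
      have h1 : (⟨M, x, D, hD, S ∪ Q, hB⟩ : FA.Curve n).bad z ≤ 1 + ng z := by
        rw [hb]
        split_ifs
        · have := hng0 z
          omega
        · exact le_rfl
      exact_mod_cast h1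
    · intro z hz
      by_contra hzn
      rw [Finset.mem_coe] at hzn
      apply hz
      show (((⟨M, x, D, hD, S ∪ Q, hB⟩ : FA.Curve n).bad z : ℤ) : ℝ) = 0
      rw [hb, if_pos, Int.cast_zero]
      exact ⟨hzn, hS z fun h => hzn (Finset.mem_union_left _ h)⟩
  have h1 : (((∑ i, ∑ᶠ z : Place ℂ M, |z.ord (x i : M)|) : ℤ) : ℝ) ≤
      μ * ((∑ z ∈ S ∪ Q, (1 + ng z) : ℤ) : ℝ) := by
    have h2 := ch_eq (⟨M, x, D, hD, S ∪ Q, hB⟩ : FA.Curve n)
    rw [← h2]
    exact hy.trans (mul_le_mul_of_nonneg_left hbad (Nat.cast_nonneg _))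
  have h2 : (∑ i, ∑ᶠ z : Place ℂ M, |z.ord (x i : M)|) ≤ μ * ∑ z ∈ S ∪ Q, (1 + ng z) := by
    exact_mod_cast h1
  refine h2.trans (mul_le_mul_of_nonneg_left ?_ (Int.natCast_nonneg _))
  have h3 : (P.card : ℤ) ≤ S.card := by exact_mod_cast Finset.card_le_card hPS
  refine le_max_of_le_left ?_
  linarith

end Pool.Agent.Q186.RU
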