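import Pool.Agent.Q186.RU.DataQ
import Pool.Agent.Q186.RU.NumQ
import Pool.Agent.Q72.NA.Pt

/-!
The height inequality for points over function fields, with contact of order at least two with a
hypersurface.
-/

set_option autoImplicit false

namespace Pool.Agent.Q186.RU

open MvPolynomial FF Pool.Agent.W603.LV Pool.Agent.W603.PV Pool.Agent.W602.GT
open Pool.Agent.Y192.OG Pool.Agent.Y192 Pool.Agent.Q72.NA

/-- the Laurent polynomial given by a polynomial -/
noncomputable def lau {n : ℕ} (q : MvPolynomial (Fin n) ℂ) : Lau n :=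
  aeval (fun i => (AddMonoidAlgebra.single (Pi.single i (1 : ℤ)) (1 : ℂ) : Lau n)) q

theorem ep_gen {n : ℕ} {K : Type} [Field K] [Algebra ℂ K] (x : Fin n → Kˣ) (i : Fin n) :
    ep x (AddMonoidAlgebra.single (Pi.single i 1) 1) = (x i : K) := by
  rw [ep_single, one_smul]
  unfold xm
  rw [Finset.prod_eq_single i]
  · rw [Pi.single_eq_same, zpow_one]
  · intro l _ hl
    rw [Pi.single_eq_of_ne hl, zpow_zero]
  · intro hi
    exact absurd (Finset.mem_univ i) hi

theorem ep_lau {n : ℕ} {K : Type} [Field K] [Algebra ℂ K] (x : Fin n → Kˣ)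
    (q : MvPolynomial (Fin n) ℂ) : ep x (lau q) = aeval (fun i => (x i : K)) q := by
  have e1 : ((ep x).comp (aeval fun i =>
      (AddMonoidAlgebra.single (Pi.single i (1 : ℤ)) (1 : ℂ) : Lau n)) :
      MvPolynomial (Fin n) ℂ →ₐ[ℂ] K) = aeval (fun i => (x i : K)) := by
    apply MvPolynomial.algHom_ext
    intro i
    rw [AlgHom.comp_apply, aeval_X, aeval_X]
    exact ep_gen x i
  exact DFunLike.congr_fun e1 q

theorem coreQ {N n d : ℕ} (K : Type) [Field K] [Algebra ℂ K] [Algebra.EssFiniteType ℂ K]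
    (a : Fin (N + 1) → K) (ha : ∃ j, a j ≠ 0) (hrat : ∀ f : K, RatF (F := ℂ) a f)
    (x : Fin n → Kˣ) (P Q : Fin n → MvPolynomial (Fin (N + 1)) ℂ) (e : Fin n → ℕ)
    (hP : ∀ i, (P i).IsHomogeneous (e i)) (hQ : ∀ i, (Q i).IsHomogeneous (e i))
    (hQ0 : ∀ i, aeval a (Q i) ≠ 0) (hx : ∀ i, (x i : K) * aeval a (Q i) = aeval a (P i))
    (halg : ∀ z : K, IsAlgebraic (IntermediateField.adjoin ℂ (Set.range fun i => (x i : K))) z)
    (q : MvPolynomial (Fin n) ℂ) (hq : aeval (fun i => (x i : K)) q ≠ 0)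
    (hlgt : LogGeneralType ℂ K d (fun p => (∃ i, p.ord (x i : K) ≠ 0) ∨
      p.ord (aeval (fun i => (x i : K)) q) = 1)) :
    ∃ (B : MvPolynomial (Fin (N + 1)) ℂ) (E A : ℕ), B.IsHomogeneous E ∧ aeval a B ≠ 0 ∧
      ∀ (M : Type) [Field M] [Algebra ℂ M] [IsFF ℂ M]
        (u : Fin (N + 1) → M), PtF (F := ℂ) a u → aeval u B ≠ 0 →
        (∀ i, aeval u (P i) ≠ 0 ∧ aeval u (Q i) ≠ 0) ∧
        ∀ S : Finset (Place ℂ M), (∀ z : Place ℂ M, z ∉ S → (∀ i,
            z.ord (aeval u (P i)) = z.ord (aeval u (Q i))) ∧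
            z.ord (aeval (fun i => aeval u (P i) / aeval u (Q i)) q) ≠ 1) →
          pht ℂ u ≤ A * max (2 * canDeg ℂ M + 3 * S.card) 0 := by
  classical
  obtain ⟨R, j, G, μ, hFG, hj, hG, hmain⟩ := dataQ K n d x (lau q) (by rw [ep_lau]; exact hq) halg
    (by rw [ep_lau]; exact hlgt)
  obtain ⟨l, hl⟩ := ha
  -- the relations
  choose D c hc0 hc1 using fun i : Fin (N + 1) =>
    Pool.Agent.W603.PV.exists_rel' (fun i => (x i : K)) (a i / a l) (halg _)
  -- a larger ring
  obtain ⟨s, hs⟩ := hFG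
  let R' : Subalgebra ℂ K := Algebra.adjoin ℂ (((s ∪ Finset.univ.image fun i => a i / a l :
    Finset K) : Set K))
  have hR' : R'.FG := ⟨_, rfl⟩
  have hRR : R ≤ R' := by
    rw [← hs]
    exact Algebra.adjoin_mono (by
      intro y hy
      simp only [Finset.coe_union, Set.mem_union]
      exact Or.inl hy)
  have haR : ∀ i, a i / a l ∈ R' := fun i => Algebra.subset_adjoin (by
    simp only [Finset.coe_union, Set.mem_union]
    exact Or.inr (by simp))
  have hxR0 : ∀ i, (j (AddMonoidAlgebra.single (Pi.single i 1) 1) : K) = (x i : K) := by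
    intro i
    rw [hj]
    exact ep_gen x i
  have hxR : ∀ i, (x i : K) ∈ R' := fun i => hRR (by rw [← hxR0]; exact Subtype.property _)
  let x' : Fin n → R' := fun i => ⟨(x i : K), hxR i⟩
  let W : Finset K := {((j G : R) : K), a l / a l} ∪
    (Finset.univ.image fun i => aeval (fun i => (x i : K)) (c i (D i))) ∪
    (Finset.univ.image fun i => (x i : K))
  have hW : ∀ w ∈ W, w ≠ 0 := by
    intro w hw
    simp only [W, Finset.mem_union, Finset.mem_image, Finset.mem_insert, Finset.mem_singleton,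
      Finset.mem_univ, true_and] at hw
    rcases hw with (((rfl | rfl) | ⟨i, rfl⟩) | ⟨i, rfl⟩)
    · intro h0
      exact hG (Subtype.ext h0)
    · rw [div_self hl]
      exact one_ne_zero
    · exact hc0 i
    · exact (x i).ne_zero
  obtain ⟨B, E, hB, hBa, hev⟩ := evalW hrat R' hR' W hW
  have hP0 : ∀ i, aeval a (P i) ≠ 0 := fun i => by
    rw [← hx]
    exact mul_ne_zero (x i).ne_zero (hQ0 i)
  refine ⟨B * (X l * ∏ i, (P i * Q i)), E + (1 + ∑ i, (e i + e i)),
    μ * ∑ j, ∑ d ∈ Finset.range (D j + 1), (c j d).totalDegree,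
    hB.mul ((isHomogeneous_X _ _).mul (IsHomogeneous.prod _ _ _ fun i _ => (hP i).mul (hQ i))),
    ?_, ?_⟩
  · rw [map_mul, map_mul, map_prod, aeval_X]
    refine mul_ne_zero hBa (mul_ne_zero hl (Finset.prod_ne_zero_iff.2 fun i _ => ?_))
    rw [map_mul]
    exact mul_ne_zero (hP0 i) (hQ0 i)
  intro M _ _ _ u hu hBu
  rw [map_mul, map_mul, map_prod, aeval_X] at hBu
  have hPQ : ∀ i, aeval u (P i) ≠ 0 ∧ aeval u (Q i) ≠ 0 := by
    intro i
    have h1 := Finset.prod_ne_zero_iff.1 (right_ne_zero_of_mul (right_ne_zero_of_mul hBu)) i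
      (Finset.mem_univ _)
    rw [map_mul] at h1
    exact ⟨left_ne_zero_of_mul h1, right_ne_zero_of_mul h1⟩
  have hul : u l ≠ 0 := left_ne_zero_of_mul (right_ne_zero_of_mul hBu)
  refine ⟨hPQ, fun S hS => ?_⟩
  obtain ⟨φ, hφ, hφW⟩ := hev M u hu (left_ne_zero_of_mul hBu)
  let φR : R →ₐ[ℂ] M := φ.comp (Subalgebra.inclusion hRR)
  have hφx : ∀ i, φ (x' i) * aeval u (Q i) = aeval u (P i) := fun i =>
    hφ (x' i) (P i) (Q i) (e i) (hP i) (hQ i) (hx i)
  have hφx0 : ∀ i, φ (x' i) ≠ 0 := fun i => hφW (x' i) (by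
    simp only [W, Finset.mem_union, Finset.mem_image, Finset.mem_univ, true_and]
    exact Or.inr ⟨i, rfl⟩)
  let y : Fin n → Mˣ := fun i => Units.mk0 (φ (x' i)) (hφx0 i)
  have hy : ∀ i, (y i : M) = φ (x' i) := fun i => rfl
  have hy' : ∀ i, (y i : M) = aeval u (P i) / aeval u (Q i) := fun i => by
    rw [eq_div_iff (hPQ i).2, hy, hφx]
  have hφRx : ∀ i, φR (j (AddMonoidAlgebra.single (Pi.single i 1) 1)) = (y i : M) := by
    intro i
    rw [hy]
    show φ (Subalgebra.inclusion hRR (j (AddMonoidAlgebra.single (Pi.single i 1) 1))) = φ (x' i)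
    congr 1
    exact Subtype.ext (hxR0 i)
  have hφG : φR (j G) ≠ 0 := hφW (Subalgebra.inclusion hRR (j G)) (by
    simp only [W, Finset.mem_union, Finset.mem_insert, Finset.mem_singleton]
    exact Or.inl (Or.inl (Or.inl rfl)))
  have hordy : ∀ (z : Place ℂ M) (i : Fin n), z.ord (y i : M) =
      z.ord (aeval u (P i)) - z.ord (aeval u (Q i)) := by
    intro z i
    rw [← hφx i, z.ord_mul (hφx0 i) (hPQ i).2, hy]
    ring
  have hnum := numQ n μ M y S (fun z hz i => by rw [hordy, (hS z hz).1 i, sub_self])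
    (fun D hD B hB hSB => hmain ⟨M, y, D, hD, B, hB⟩ φR hφRx hφG (by
      intro z hz
      have h1 : z ∉ S := fun h => hz.1 (hSB h)
      have h2 := (hS z h1).2
      show z.ord (ep y (lau q)) ≠ 1
      rw [ep_lau]
      simp only [hy']
      exact h2))
  -- the coordinates
  have hφa : ∀ i, φ ⟨a i / a l, haR i⟩ = u i / u l := by
    intro i
    have h1 := hφ ⟨a i / a l, haR i⟩ (X i) (X l) 1 (isHomogeneous_X _ _) (isHomogeneous_X _ _) (by
      rw [aeval_X, aeval_X]
      show a i / a l * a l = a i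
      field_simp)
    rw [aeval_X, aeval_X] at h1
    rw [eq_div_iff hul, h1]
  have hval : ∀ p : MvPolynomial (Fin n) ℂ,
      ((aeval x' p : R') : K) = aeval (fun i => (x i : K)) p := by
    intro p
    have e1 : (R'.val.comp (aeval x') : MvPolynomial (Fin n) ℂ →ₐ[ℂ] K) =
        aeval (fun i => (x i : K)) := by
      apply MvPolynomial.algHom_ext
      intro i
      simp [x']
    exact DFunLike.congr_fun e1 p
  have hφp : ∀ p : MvPolynomial (Fin n) ℂ, φ (aeval x' p) = aeval (fun i => (y i : M)) p := by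
    intro p
    have e1 : (φ.comp (aeval x') : MvPolynomial (Fin n) ℂ →ₐ[ℂ] M) =
        aeval (fun i => (y i : M)) := by
      apply MvPolynomial.algHom_ext
      intro i
      simp [hy]
    exact DFunLike.congr_fun e1 p
  have hht := ht_alg (fun i => (y i : M)) u l hul D c
    (fun i => by
      rw [← hφp]
      refine hφW _ ?_
      rw [hval]
      simp only [W, Finset.mem_union, Finset.mem_image, Finset.mem_univ, true_and]
      exact Or.inl (Or.inr ⟨i, rfl⟩))
    (fun i => by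
      have h1 : (∑ d ∈ Finset.range (D i + 1), aeval x' (c i d) *
          (⟨a i / a l, haR i⟩ : R') ^ d : R') = 0 := by
        apply Subtype.ext
        rw [AddSubmonoidClass.coe_finsetSum]
        show ∑ d ∈ Finset.range (D i + 1), ((aeval x' (c i d) : R') : K) * (a i / a l) ^ d = 0
        simp_rw [hval]
        exact hc1 i
      have h2 := congrArg φ h1
      rw [map_sum, map_zero] at h2
      rw [← h2]
      refine Finset.sum_congr rfl fun d _ => ?_
      rw [map_mul, map_pow, hφp, hφa])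
  refine hht.trans ?_
  have h3 : (∑ i, hgt ℂ (y i : M)) ≤ μ * max (2 * canDeg ℂ M + 3 * S.card) 0 :=
    (Finset.sum_le_sum fun i _ => hgt_le_abs _).trans hnum
  refine (mul_le_mul_of_nonneg_left h3 (Int.natCast_nonneg _)).trans (le_of_eq ?_)
  push_cast
  ring

end Pool.Agent.Q186.RU
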