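import Pool.Agent.Q72.NA.Core

/-!
Curves in varieties of log general type over tori, with contact of order at least two with a
hypersurface: the estimate for one curve.
-/

set_option autoImplicit false

namespace Pool.Agent.Q186.RU

open FF Pool.Agent.W603.LV Pool.Agent.W602.GT Pool.Agent.Y192.OG Pool.Agent.Q72.NA
open Pool.Agent.Y192 (FA.Curve)

variable {n : ℕ}

/-- the estimate for one curve, with the derivation as a parameter, for a hypersurface `q = 0` in the
torus at which contact of order one is not allowed -/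
theorem dataQ (K : Type) [Field K] [Algebra ℂ K] [Algebra.EssFiniteType ℂ K] (n d : ℕ)
    (x : Fin n → Kˣ) (q : Lau n) (hq : ep x q ≠ 0)
    (halg : ∀ z : K, IsAlgebraic (IntermediateField.adjoin ℂ (Set.range fun i => (x i : K))) z)
    (hlgt : LogGeneralType ℂ K d (fun P => (∃ i, P.ord (x i : K) ≠ 0) ∨ P.ord (ep x q) = 1)) :
    ∃ (R : Subalgebra ℂ K) (j : Lau n →ₐ[ℂ] R) (G : Lau n) (μ : ℕ), R.FG ∧
      (∀ g, (j g : K) = ep x g) ∧ j G ≠ 0 ∧
      ∀ (c : FA.Curve n) (φ : R →ₐ[ℂ] c.L), (∀ i : Fin n,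
          φ (j (AddMonoidAlgebra.single (Pi.single i 1) 1)) = (c.x i : c.L)) →
        φ (j G) ≠ 0 → (∀ z ∈ c.U, z.ord (ep c.x q) ≠ 1) → c.ch 0 ≤ μ * c.cnt (fun z => (c.bad z : ℤ)) 0 := by
  classical
  obtain ⟨R, j, f, κ, s, h, Γ₀, hFG, hj, hint, hf, hrad, hleast, hom0, H2, H3, hv⟩ :=
    alg_all K n d x q hq halg hlgt
  have hinj : Function.Injective (algebraMap R K) := Subtype.val_injective
  have hjx : ∀ i : Fin n, algebraMap R K (j (AddMonoidAlgebra.single (Pi.single i 1) 1)) =
      (x i : K) := by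
    intro i
    have e1 : algebraMap R K (j (AddMonoidAlgebra.single (Pi.single i 1) 1)) =
      ep x (AddMonoidAlgebra.single (Pi.single i 1) 1) := hj _
    rw [e1, ep_single, one_smul]
    unfold xm
    rw [Finset.prod_eq_single i]
    · rw [Pi.single_eq_same, zpow_one]
    · intro l _ hl
      rw [Pi.single_eq_of_ne hl, zpow_zero]
    · intro hi
      exact absurd (Finset.mem_univ i) hi
  obtain ⟨μ, G, hG, hmain⟩ := Pool.Agent.Y192.FA.E.curvesE (K := K) (R := R) hinj hint hf hrad
    hleast hom0 H2 (fun i => by rw [hjx]; exact H3 i)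
  refine ⟨R, j, G, μ, hFG, hj, hG, ?_⟩
  intro c φ hφ hev' hqc
  -- the map on Laurent polynomials
  have hφj : ∀ g : Lau n, φ (j g) = ((c.ev g : c.Mr) : c.L) := by
    intro g
    rw [Pool.Agent.Y192.FA.coe_ev]
    have e1 : (φ.comp j : Lau n →ₐ[ℂ] c.L) = ep c.x := by
      apply AddMonoidAlgebra.algHom_ext
      · intro m
        rw [ep_single, one_smul]
        exact mono_eq φ j c.x hφ m
      · exact Subsingleton.elim _ _
    exact DFunLike.congr_fun e1 g
  have hev : c.ev G ≠ 0 := by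
    intro h0
    apply hev'
    rw [hφj, h0]
    rfl
  have hreg : ∀ r : R, φ r ∈ c.Mr := by
    intro r z hz
    obtain ⟨p, hp, hpr⟩ := hint r
    have h2 : Ge z 0 (φ r) := by
      refine ge_integral z (φ r) p.natDegree (fun i => φ (j (p.coeff i))) (fun i => ?_) ?_ ?_
      · show Ge z 0 (φ (j (p.coeff i)))
        rw [hφj]
        exact (c.ev (p.coeff i)).2 z hz
      · show φ (j (p.coeff p.natDegree)) = 1
        rw [hp.coeff_natDegree, map_one, map_one]
      · have h3 := congrArg φ hpr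
        rw [Polynomial.eval₂_eq_sum_range, map_sum, map_zero] at h3
        rw [← h3]
        refine Finset.sum_congr rfl fun i _ => ?_
        rw [map_mul, map_pow]
        rfl
    exact h2
  let η : R →ₐ[ℂ] c.Mr := φ.codRestrict c.Mr hreg
  have hη : ∀ r, ((η r : c.Mr) : c.L) = φ r := fun r => rfl
  refine hmain c ⟨η, fun g => Subtype.ext (by rw [hη, hφj]), fun i z hz h0 => ?_⟩ hev
  obtain ⟨o1, o2, o3, o4, o5, o6⟩ := (Pool.Agent.Y192.FA.a_ord n c).1 z trivial
  refine hv (fun r => c.ord z (η r)) ⟨?_, ?_, ?_, ?_⟩ ?_ ?_ i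
  · show c.ord z (η 1) = 0
    rw [map_one, c.ord_of_ne one_ne_zero]
    show ((z.ord (1 : c.L) : ℤ) : WithTop ℤ) = 0
    rw [z.ord_one]
    rfl
  · intro a b
    show c.ord z (η (a * b)) = _
    rw [map_mul]
    exact o1 _ _
  · intro a b
    show _ ≤ c.ord z (η (a + b))
    rw [map_add]
    exact o2 _ _
  · intro a
    exact o4 hz _
  · show c.ord z (η (j f)) = 1
    rw [show η (j f) = c.ev f from Subtype.ext (by rw [hη, hφj])]
    exact h0
  · show c.ord z (η (j q)) ≠ 1
    by_cases h0' : η (j q) = 0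
    · rw [h0', c.ord_top]
      exact WithTop.top_ne_one
    · rw [c.ord_of_ne h0']
      have h1 : ((η (j q) : c.Mr) : c.L) = ep c.x q := by
        rw [hη, hφj, Pool.Agent.Y192.FA.coe_ev]
      rw [h1]
      intro h2
      exact hqc z hz (by exact_mod_cast h2)

end Pool.Agent.Q186.RU
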