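import Pool.Agent.Q186.RU.CoreQ
import Pool.Agent.Q271.RC.Curves

/-!
The degree bound for curves in pairs of log general type, with orbifold contact conditions.
-/

set_option autoImplicit false

namespace Pool.Agent.Q186.RU

open MvPolynomial FF Pool.Agent.W603.LV Pool.Agent.W603.PV Pool.Agent.W602.GT Pool.Agent.Q72.NA
open Pool.Agent.Q271.RC

/-- At the place `z`, two of the orders of the functions `v 0, …, v n` differ by at least `m`, or all
these orders are equal and the order of `Q (1, v 1 / v 0, …, v n / v 0)` is not one. -/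
def OrbContact {M : Type} [Field M] [Algebra ℂ M] {n : ℕ} (m : ℕ)
    (Q : MvPolynomial (Fin (n + 1)) ℂ) (v : Fin (n + 1) → M) (z : Place ℂ M) : Prop :=
  (∃ i j, (m : ℤ) ≤ z.ord (v i) - z.ord (v j)) ∨
    ((∀ i, z.ord (v i) = z.ord (v 0)) ∧ z.ord (aeval (fun i => v i / v 0) Q) ≠ 1)

/-- A projective variety `X` of dimension `d` (generic point `a`, function field `K`), forms
`f 0, …, f n` of degree `e` which do not vanish on `X`, whose ratios define a generically finite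
rational map from `X` to a closed subvariety of projective `n`-space, and a polynomial `Q` with
`Q (1, f 1 / f 0, …, f n / f 0) ≠ 0` on `X`, such that `X` is of log general type for the boundary
which consists of the prime divisors (on all models) at which a ratio `f i / f 0` is not a unit or
at which the function `Q (1, f 1 / f 0, …, f n / f 0)` vanishes to the first order. -/
structure IsOrbPair {N n : ℕ} {K : Type} [Field K] [Algebra ℂ K] (d : ℕ) (a : Fin (N + 1) → K)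
    (f : Fin (n + 1) → MvPolynomial (Fin (N + 1)) ℂ) (e : ℕ)
    (Q : MvPolynomial (Fin (n + 1)) ℂ) : Prop where
  gen : IsGeneric a
  hom : ∀ i, (f i).IsHomogeneous e
  ne : ∀ i, aeval a (f i) ≠ 0
  fin : Algebra.IsAlgebraic
    (IntermediateField.adjoin ℂ (Set.range fun i => aeval a (f i) / aeval a (f 0))) K
  neQ : aeval (fun i => aeval a (f i) / aeval a (f 0)) Q ≠ 0
  lgt : LogGeneralType ℂ K d fun P => (∃ i, P.ord (aeval a (f i)) ≠ P.ord (aeval a (f 0))) ∨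
    P.ord (aeval (fun i => aeval a (f i) / aeval a (f 0)) Q) = 1

theorem OrbContact.high {M : Type} [Field M] [Algebra ℂ M] {n m : ℕ}
    {Q : MvPolynomial (Fin (n + 1)) ℂ} {v : Fin (n + 1) → M} {z : Place ℂ M}
    (h : OrbContact m Q v z) : HighContact m v z := by
  rcases h with h | h
  · exact Or.inr h
  · exact Or.inl h.1

theorem OrbContact.mono {M : Type} [Field M] [Algebra ℂ M] {n m m' : ℕ} (hm : m ≤ m')
    {Q : MvPolynomial (Fin (n + 1)) ℂ} {v : Fin (n + 1) → M} {z : Place ℂ M}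
    (h : OrbContact m' Q v z) : OrbContact m Q v z := by
  rcases h with ⟨i, j, h⟩ | h
  · exact Or.inl ⟨i, j, le_trans (by exact_mod_cast hm) h⟩
  · exact Or.inr h

theorem OrbContact.pull {M L : Type} [Field M] [Algebra ℂ M] [Field L] [Algebra ℂ L] {n m : ℕ}
    {Q : MvPolynomial (Fin (n + 1)) ℂ} (σ : M →ₐ[ℂ] L) {v : Fin (n + 1) → M} {z : Place ℂ L}
    {z0 : Place ℂ M} {e : ℕ} (he : 0 < e) (hov : ∀ f : M, z.ord (σ f) = e * z0.ord f)
    (h : OrbContact m Q v z0) : OrbContact m Q (fun i => σ (v i)) z := by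
  rcases h with ⟨i, j, h⟩ | ⟨h, hQ⟩
  · left
    refine ⟨i, j, ?_⟩
    rw [hov, hov, ← mul_sub]
    have h1 : (0 : ℤ) ≤ m := Int.natCast_nonneg _
    have h2 : (1 : ℤ) ≤ e := by exact_mod_cast he
    nlinarith
  · right
    refine ⟨fun i => by rw [hov, hov, h i], ?_⟩
    have e1 : aeval (fun i => σ (v i) / σ (v 0)) Q = σ (aeval (fun i => v i / v 0) Q) := by
      rw [← aeval_map_hom]
      simp only [map_div₀]
    rw [e1, hov]
    intro h1
    rcases Int.eq_one_or_neg_one_of_mul_eq_one h1 with h2 | h2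
    · rw [h2, one_mul] at h1
      exact hQ h1
    · have h3 : (0 : ℤ) < e := by exact_mod_cast he
      omega

variable {M : Type} [Field M] [Algebra ℂ M] [IsFF ℂ M] {n : ℕ}

/-- **The height inequality for orbifold contact.** -/
theorem contact_boundQ {N : ℕ} {K : Type} [Field K] [Algebra ℂ K] (a : Fin (N + 1) → K)
    (f : Fin (n + 1) → MvPolynomial (Fin (N + 1)) ℂ) (e : ℕ) (hf : ∀ i, (f i).IsHomogeneous e)
    (Q : MvPolynomial (Fin (n + 1)) ℂ) (B : MvPolynomial (Fin (N + 1)) ℂ) (A : ℕ)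
    (hB : ∀ (M : Type) [Field M] [Algebra ℂ M] [IsFF ℂ M] (u : Fin (N + 1) → M),
      PtF (F := ℂ) a u → aeval u B ≠ 0 → (∃ j, u j ≠ 0) → (∀ i, aeval u (f i) ≠ 0) ∧
        ∀ S : Finset (Place ℂ M), (∀ z : Place ℂ M, z ∉ S → (∀ i,
            z.ord (aeval u (f i)) = z.ord (aeval u (f 0))) ∧
            z.ord (aeval (fun i => aeval u (f i) / aeval u (f 0)) Q) ≠ 1) →
          pht ℂ u ≤ A * max (2 * canDeg ℂ M + 3 * S.card) 0)
    (m : ℕ) (hm : 12 * A * (n + 1) * e < m)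
    (M : Type) [Field M] [Algebra ℂ M] [IsFF ℂ M] (u : Fin (N + 1) → M)
    (hu : PtF (F := ℂ) a u) (hBu : aeval u B ≠ 0) (hu0 : ∃ j, u j ≠ 0) (S : Finset (Place ℂ M))
    (hS : ∀ z : Place ℂ M, z ∉ S → OrbContact m Q (fun i => aeval u (f i)) z) :
    pht ℂ u ≤ 2 * A * max (2 * canDeg ℂ M + 3 * S.card) 0 := by
  classical
  obtain ⟨hf0, h1⟩ := hB M u hu hBu hu0
  have hm0 : 0 < m := by omega
  have hpos : 0 ≤ pht ℂ u := by
    obtain ⟨j, hj⟩ := hu0
    have h2 := hgt_ratio_le u hj j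
    refine le_trans ?_ h2
    unfold hgt
    exact finsum_nonneg fun _ => le_max_right _ _
  obtain ⟨Z, hZ, hZ2⟩ := card_contact (fun i => aeval u (f i)) hf0 (e * pht ℂ u)
    (fun i => hgt_forms u f e hf hu0 (hf0 0) i) m hm0 S (fun z hz => (hS z hz).high)
  have h2 := h1 (S ∪ Z) (fun z hz => by
    rw [Finset.mem_union, not_or] at hz
    have h3 := hZ2 z hz.1 hz.2
    refine ⟨h3, ?_⟩
    rcases hS z hz.1 with ⟨i, j, h4⟩ | h4
    · exfalso
      rw [h3 i, h3 j, sub_self] at h4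
      omega
    · exact h4.2)
  have h3 : ((S ∪ Z).card : ℤ) ≤ S.card + Z.card := by exact_mod_cast Finset.card_union_le S Z
  have hA0 : (0 : ℤ) ≤ A := Int.natCast_nonneg _
  have hZ0 : (0 : ℤ) ≤ Z.card := Int.natCast_nonneg _
  have h4 : max (2 * canDeg ℂ M + 3 * ((S ∪ Z).card : ℤ)) 0 ≤
      max (2 * canDeg ℂ M + 3 * (S.card : ℤ)) 0 + 3 * Z.card := by
    rcases le_total (2 * canDeg ℂ M + 3 * (S.card : ℤ)) 0 with h | h
    · rw [max_eq_right h]
      refine max_le ?_ ?_ <;> omega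
    · rw [max_eq_left h]
      refine max_le ?_ ?_ <;> omega
  have h5 : pht ℂ u ≤ A * max (2 * canDeg ℂ M + 3 * (S.card : ℤ)) 0 + 3 * A * Z.card := by
    refine h2.trans ((mul_le_mul_of_nonneg_left h4 hA0).trans (le_of_eq ?_))
    ring
  -- the number of the places
  have h6 : 6 * (A : ℤ) * Z.card ≤ pht ℂ u := by
    have h7 : (m : ℤ) * (6 * A * Z.card) ≤ m * pht ℂ u := by
      have h8 : (6 * A : ℤ) * ((m : ℤ) * Z.card) ≤ (6 * A) * (2 * (n + 1) * (e * pht ℂ u)) :=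
        mul_le_mul_of_nonneg_left hZ (by positivity)
      have h9 : ((12 * A * (n + 1) * e : ℕ) : ℤ) ≤ m := by exact_mod_cast hm.le
      calc (m : ℤ) * (6 * A * Z.card) = (6 * A : ℤ) * ((m : ℤ) * Z.card) := by ring
        _ ≤ (6 * A) * (2 * (n + 1) * (e * pht ℂ u)) := h8
        _ = ((12 * A * (n + 1) * e : ℕ) : ℤ) * pht ℂ u := by push_cast; ring
        _ ≤ m * pht ℂ u := mul_le_mul_of_nonneg_right h9 hpos
    exact le_of_mul_le_mul_left h7 (by exact_mod_cast hm0)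
  linarith

/-- the estimate for the pair -/
theorem pair_boundQ {N n d : ℕ} {K : Type} [Field K] [Algebra ℂ K] {a : Fin (N + 1) → K}
    {f : Fin (n + 1) → MvPolynomial (Fin (N + 1)) ℂ} {e : ℕ} {Q : MvPolynomial (Fin (n + 1)) ℂ}
    (hX : IsOrbPair d a f e Q) :
    ∃ (B : MvPolynomial (Fin (N + 1)) ℂ) (E A m0 : ℕ), B.IsHomogeneous E ∧ aeval a B ≠ 0 ∧
      ∀ m, m0 ≤ m → ∀ (M : Type) [Field M] [Algebra ℂ M] [IsFF ℂ M] (u : Fin (N + 1) → M),
        PtF (F := ℂ) a u → aeval u B ≠ 0 → (∃ j, u j ≠ 0) → (∀ i, aeval u (f i) ≠ 0) ∧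
        ∀ S : Finset (Place ℂ M),
          (∀ z : Place ℂ M, z ∉ S → OrbContact m Q (fun i => aeval u (f i)) z) →
          pht ℂ u ≤ 2 * A * max (2 * canDeg ℂ M + 3 * S.card) 0 := by
  have : Algebra.EssFiniteType ℂ K := ess_of_adjoin hX.gen.2
  let x : Fin (n + 1) → Kˣ := fun i =>
    Units.mk0 (aeval a (f i) / aeval a (f 0)) (div_ne_zero (hX.ne i) (hX.ne 0))
  have hx : ∀ i, (x i : K) = aeval a (f i) / aeval a (f 0) := fun i => rfl
  have hBd : (fun P : Place ℂ K => (∃ i, P.ord (aeval a (f i)) ≠ P.ord (aeval a (f 0))) ∨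
      P.ord (aeval (fun i => aeval a (f i) / aeval a (f 0)) Q) = 1) =
      fun P => (∃ i, P.ord (x i : K) ≠ 0) ∨ P.ord (aeval (fun i => (x i : K)) Q) = 1 := by
    funext P
    simp only [hx, P.ord_div (hX.ne _) (hX.ne 0), sub_ne_zero]
  have hlgt := hX.lgt
  rw [hBd] at hlgt
  have hfin := hX.fin
  obtain ⟨B, E, A, hB, hBa, hmain⟩ := coreQ K a hX.gen.1
    (fun g => ratF_of_adjoin hX.gen.2 g) x f
    (fun _ => f 0) (fun _ => e) hX.hom (fun _ => hX.hom 0) (fun _ => hX.ne 0)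
    (fun i => by rw [hx, div_mul_cancel₀ _ (hX.ne 0)]) (fun z => hfin.isAlgebraic z) Q hX.neQ hlgt
  refine ⟨B, E, A, 12 * A * (n + 1) * e + 1, hB, hBa, ?_⟩
  intro m hm M _ _ _ u hu hBu hu0
  obtain ⟨h1, -⟩ := hmain M u hu hBu
  refine ⟨fun i => (h1 i).1, fun S hS => ?_⟩
  refine contact_boundQ a f e hX.hom Q B A ?_ m (by omega) M u hu hBu hu0 S hS
  intro M' _ _ _ u' hu' hBu' _
  obtain ⟨h2, h3⟩ := hmain M' u' hu' hBu'
  exact ⟨fun i => (h2 i).1, h3⟩

/-- **The linear bound for the pair.** -/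
theorem pair_linear {N n d : ℕ} {K : Type} [Field K] [Algebra ℂ K] {a : Fin (N + 1) → K}
    {f : Fin (n + 1) → MvPolynomial (Fin (N + 1)) ℂ} {e : ℕ} {Q : MvPolynomial (Fin (n + 1)) ℂ}
    (hX : IsOrbPair d a f e Q) :
    ∃ (B : MvPolynomial (Fin (N + 1)) ℂ) (E A m0 : ℕ), B.IsHomogeneous E ∧ aeval a B ≠ 0 ∧
      ∀ m, m0 ≤ m → ∀ (M : Type) [Field M] [Algebra ℂ M] [IsFF ℂ M] (u : Fin (N + 1) → M),
        PtF (F := ℂ) a u → aeval u B ≠ 0 → (∃ j, u j ≠ 0) → (∀ i, aeval u (f i) ≠ 0) ∧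
        ∀ S : Finset (Place ℂ M),
          (∀ z : Place ℂ M, z ∉ S → OrbContact m Q (fun i => aeval u (f i)) z) →
          Nonconst u → pht ℂ u ≤ A * (canDeg ℂ M + S.card) := by
  obtain ⟨B, E, A, m0, hB, hBa, hmain⟩ := pair_boundQ hX
  refine ⟨B, E, 5 * (2 * A), m0, hB, hBa, fun m hm M _ _ _ u hu hBu hu0 => ?_⟩
  obtain ⟨h1, -⟩ := hmain m hm M u hu hBu hu0
  refine ⟨h1, fun S hS hne => ?_⟩
  refine lin_gen (fun M _ _ u => PtF (F := ℂ) a u ∧ aeval u B ≠ 0 ∧ ∃ j, u j ≠ 0)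
    (fun M _ _ u z => OrbContact m Q (fun i => aeval u (f i)) z) (2 * A) ?_ ?_ ?_ M u
    ⟨hu, hBu, hu0⟩ S hS hne
  · rintro M _ _ u σ ⟨hu, hGu, j, hj⟩
    refine ⟨fun G D hG hGa => ?_, ?_, j, (map_ne_zero σ).2 hj⟩
    · rw [aeval_map_hom, hu G D hG hGa, map_zero]
    · rw [aeval_map_hom]
      exact (map_ne_zero σ).2 hGu
  · rintro M _ _ u σ z z0 e he hov ⟨hu, hGu⟩ hQ
    have h3 := hQ.pull σ he hov
    simp only [aeval_map_hom]
    exact h3
  · rintro M _ _ _ u ⟨hu, hGu, hu0⟩ S hS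
    have h4 := (hmain m hm M u hu hGu hu0).2 S hS
    push_cast
    exact h4

end Pool.Agent.Q186.RU
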